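import Pool.Agent.Helper39.DiscMain
import Pool.Agent.Helper39.ContractibleHomology

/-!
A compact contractible length metric space `S` such that the diameters
`diam_c (Lip_1 (Bⁿ(R) → S))` are at least `R` for every `n ≥ 1`, every `c` and every `R > 0`.

`S` is the closed unit disc with the length metric of `|du| + |dθ| / u` in polar coordinates.
-/

open scoped NNReal ENNReal
open CategoryTheory.Limits
open Pool.Agent.Helper39 Pool.Agent.Helper39.LipMaps

namespace Pool.Agent.Results.MP_b33053_gt.Contractible

theorem result : ∃ (S : Type) (_ : MetricSpace S),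
    CompactSpace S ∧ PathConnectedSpace S ∧ IsLengthMetric S ∧
    Nonempty (S ≃ₜ Metric.closedBall (0 : ℂ) 1) ∧ ContractibleSpace S ∧
    (∀ i : ℕ, 1 ≤ i → IsZero (realHomology i S)) ∧
    ∀ n : ℕ, 1 ≤ n → ∀ c : ℝ≥0, ∀ R : ℝ, 0 < R →
      ENNReal.ofReal R ≤
        lipDiam c (Metric.closedBall (0 : EuclideanSpace ℝ (Fin n)) R) S := by
  refine ⟨DiscM.Disc, inferInstance, inferInstance, inferInstance, DiscM.isLengthMetric_disc,
    ⟨DiscM.ballHomeo.symm⟩, inferInstance, fun i hi => ?_, fun n hn c R hR => ?_⟩
  · exact isZero_of_contractible DiscM.Disc (by omega)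
  · exact DiscM.diam_ge hn hR c

end Pool.Agent.Results.MP_b33053_gt.Contractible
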