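import Pool.Agent.Helper4.Lip.Geom
import Pool.Agent.Helper4.Lip.Lift

set_option autoImplicit false

open scoped ENNReal NNReal
open Pool.Agent.Helper4.Lip

/-- For every `n ≥ 1` there is a closed flat Riemannian manifold `S` (of dimension `n + 2`) with
`H_i(S, ℝ) = 0` for `1 ≤ i ≤ n`, such that for every `c` and `R` the diameter
`diam_c(Lip_1(B^n(R) → S))` is at least `R`; in particular it is unbounded as `R → ∞`. -/
theorem Pool.Agent.Results.MP_b33053_gt.FlatManifold.result (n : ℕ) (hn : 1 ≤ n) :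
    ∃ (S : Type) (_ : MetricSpace S),
      CompactSpace S ∧ PathConnectedSpace S ∧ IsLengthMetric S ∧
      (∀ s : S, ∃ ε : ℝ, 0 < ε ∧ Nonempty (Metric.ball s ε ≃ᵢ
        Metric.ball (0 : EuclideanSpace ℝ (Fin (n + 2))) ε)) ∧
      (∀ i : ℕ, 1 ≤ i → i ≤ n → RealHomologyVanishes S i) ∧
      (∀ (c : ℝ≥0) (R : ℝ), 0 < R → ENNReal.ofReal R ≤
        lipDiam c 1 (Metric.closedBall (0 : EuclideanSpace ℝ (Fin n)) R) S) ∧
      ∀ c : ℝ≥0, ⨆ R : {R : ℝ // 0 < R},
        lipDiam c 1 (Metric.closedBall (0 : EuclideanSpace ℝ (Fin n)) R) S = ⊤ := by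
  have key : ∀ (c : ℝ≥0) (R : ℝ), 0 < R → ENNReal.ofReal R ≤
      lipDiam c 1 (Metric.closedBall (0 : EuclideanSpace ℝ (Fin n)) R) (M n) :=
    fun c R hR => le_lipDiam hn c R hR
  refine ⟨M n, inferInstance, inferInstance, inferInstance, isLengthMetric, locally_euclidean,
    ?_, key, ?_⟩
  · intro i h1 h2
    obtain ⟨k, rfl⟩ : ∃ k, i = k + 1 := ⟨i - 1, by omega⟩
    exact vanishes k h2
  · intro c
    apply ENNReal.eq_top_of_forall_nnreal_le
    intro r
    have h1 := key c ((r : ℝ) + 1) (by positivity)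
    have h2 := le_iSup (fun R : {R : ℝ // 0 < R} =>
      lipDiam c 1 (Metric.closedBall (0 : EuclideanSpace ℝ (Fin n)) R) (M n))
      ⟨(r : ℝ) + 1, by positivity⟩
    refine le_trans ?_ (h1.trans h2)
    rw [← ENNReal.ofReal_coe_nnreal]
    exact ENNReal.ofReal_le_ofReal (by linarith)
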